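import Pool.Agent.Lib.MP_562b47_mp.SC.Low
import Pool.Agent.Lib.MP_562b47_mp.SC.Thin
import Pool.Agent.Lib.MP_562b47_mp.CD.Box
import Pool.Agent.Lib.MP_562b47_mp.SG.Defs

/-!
MP_562b47, slabs, the chain: the bound for the boxes `{0, ..., n - 1}^d × F`.
-/

open Finset MeasureTheory

namespace Pool.Agent.Lib.MP_562b47_mp.SC

open Pool.Agent.Lib.MP_562b47_mp.SX Pool.Agent.Lib.MP_562b47_mp.SR Pool.Agent.Lib.MP_562b47_mp.WO
open Pool.Agent.Lib.MP_562b47_mp
open Pool.Agent.Lib.MP_562b47_mp.RD (pe)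
open Pool.Agent.Lib.MP_562b47_mp.CD (ev ev_pos ev_anti etf etf_pos etf_le_one etf_le_ev exists_M
  chain sum_inv_sq)

/-! ### The sites near the boundary of the box -/

variable {d : ℕ} {c : ℝ} {F : Type} [Fintype F] [DecidableEq F] [Thin F]

omit [DecidableEq F] [Thin F] in
theorem card_bd (n R : ℕ) :
    (univ.filter fun s : (Fin d → Fin n) × F =>
      ∃ i, (s.1 i : ℕ) < R ∨ n ≤ (s.1 i : ℕ) + R).card ≤
      2 * d * R * n ^ (d - 1) * Fintype.card F := by
  classical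
  have h1 : (univ.filter fun s : (Fin d → Fin n) × F =>
      ∃ i, (s.1 i : ℕ) < R ∨ n ≤ (s.1 i : ℕ) + R) ⊆
      (univ.filter fun s : Fin d → Fin n => ∃ i, (s i : ℕ) < R ∨ n ≤ (s i : ℕ) + R) ×ˢ
        (univ : Finset F) := by
    intro s hs
    simp only [mem_filter, mem_univ, true_and] at hs
    rw [mem_product, mem_filter]
    exact ⟨⟨mem_univ _, hs⟩, mem_univ _⟩
  refine (card_le_card h1).trans ?_
  rw [card_product, card_univ]
  exact Nat.mul_le_mul_right _ (CD.card_bd n R)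

/-- sites in the interior of the box have a block -/
theorem fits_of {n : ℕ} (P : Par d c F ((Fin d → Fin n) × F)) (hpos : P.pos = SG.bp d n)
    {j R : ℕ} (hR : P.G.b * ((P.N0 + j : ℕ) : ℤ) + 2 ≤ R) {s : (Fin d → Fin n) × F}
    (hs : ∀ i, R ≤ (s.1 i : ℕ) ∧ (s.1 i : ℕ) + R < n) : P.fits j s := by
  intro x hx
  rw [hpos] at hx ⊢
  rw [mem_bq, RD.mem_bq] at hx
  have g : ∀ i, (x.1 i).toNat < n ∧ 0 ≤ x.1 i := by
    intro i
    have h1 := hx i
    have h2 := hs i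
    simp only [rel, RD.rel, SG.bp, GX.bp] at h1
    omega
  refine ⟨(fun i => ⟨(x.1 i).toNat, (g i).1⟩, x.2), ?_⟩
  unfold SG.bp GX.bp
  refine Prod.ext ?_ rfl
  funext i
  have := (g i).2
  simp only
  omega

/-- sites without a block are near the boundary -/
theorem bad_card {n : ℕ} (P : Par d c F ((Fin d → Fin n) × F)) (hpos : P.pos = SG.bp d n)
    {m R : ℕ} (hR : P.G.b * ((P.N0 + (m + 1) : ℕ) : ℤ) + 2 ≤ R) :
    ((univ \ P.gds m).card : ℝ) ≤ 2 * d * R * (n : ℝ) ^ (d - 1) * Fintype.card F := by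
  classical
  have h1 : univ \ P.gds m ⊆ univ.filter fun s : (Fin d → Fin n) × F =>
      ∃ i, (s.1 i : ℕ) < R ∨ n ≤ (s.1 i : ℕ) + R := by
    intro s hs
    rw [mem_sdiff] at hs
    have h2 := hs.2
    rw [P.mem_gds] at h2
    simp only [mem_filter, mem_univ, true_and]
    by_contra hcon
    push Not at hcon
    exact h2 (fits_of P hpos hR hcon)
  have h3 := (card_le_card h1).trans (card_bd n R)
  exact_mod_cast h3

/-- a value of the potential for the energy `Es` -/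
theorem exists_val (hc : 0 < c) (hd : 2 ≤ d) {mu kap Es : ℝ} (hmu : 0 ≤ mu)
    (h1 : kap - mu - c < Es) (h2 : Es < 4 * d + kap + mu + c) :
    ∃ v : ℝ, |v| < 2 * d + mu ∧ |Es - 2 * d - kap + v| < c := by
  have hd2 : (2 : ℝ) ≤ d := by exact_mod_cast hd
  set w : ℝ := 2 * d + kap - Es with hw
  set S : ℝ := 2 * d + mu with hS
  have hS0 : 0 < S := by rw [hS]; linarith
  have hSc : 0 < S + c := by linarith
  have hwS : |w| < S + c := by
    rw [abs_lt, hw, hS]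
    constructor <;> linarith
  refine ⟨w * (S / (S + c)), ?_, ?_⟩
  · rw [abs_mul, abs_of_pos (div_pos hS0 hSc), ← mul_div_assoc, div_lt_iff₀ hSc]
    nlinarith
  · have e1 : Es - 2 * d - kap + w * (S / (S + c)) = -(w * (c / (S + c))) := by
      have e2 : Es - 2 * d - kap = -w := by rw [hw]; ring
      rw [e2]
      field_simp
      ring
    rw [e1, abs_neg, abs_mul, abs_of_pos (div_pos hc hSc), ← mul_div_assoc, div_lt_iff₀ hSc]
    nlinarith

/-- the bound for the boxes -/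
theorem box (hc : 0 < c) (hd : 2 ≤ d) [Nonempty F] {mu : ℝ} (hmu : 0 ≤ mu)
    (hcov : ∀ v : ℝ, |v| < 2 * d + mu →
      ∃ (φ : F → ℝ) (lam : ℝ), Mode F φ lam ∧ |v - lam| < 2 * d)
    {kap Es : ℝ} (h1 : kap - mu - c < Es) (h2 : Es < 4 * d + kap + mu + c) :
    ∃ δ C a₀ : ℝ, 0 < δ ∧ 0 < a₀ ∧ 0 ≤ C ∧ ∀ E : ℝ, |E - Es| < δ →
      ∀ a : ℝ, 0 < a → a < a₀ → ∃ n₀ : ℕ, ∀ n ≥ n₀,
        ∫ V, AL.DU (SG.Ab d F kap E n) (SG.xb d F n) (fun x => ((V x : ℝ) : ℂ) - a * Complex.I)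
          ∂(Measure.pi fun _ : (Fin d → Fin n) × F => unif c) ≤ C * (n : ℝ) ^ d := by
  obtain ⟨v, hv1, hv2⟩ := exists_val hc hd hmu h1 h2
  obtain ⟨φ, lam, hφ, hlam⟩ := hcov v hv1
  obtain ⟨G, δ, hδ, hadm⟩ := exists_Gd (c := c) hd hφ (abs_lt.mp hlam).1 (abs_lt.mp hlam).2 hv2
  obtain ⟨Cw, hCw1, hCwG, N1, Cy, hN1, hCy, hlow⟩ := low_inst hc G
  obtain ⟨N2, Cx, hN2, hCx, hthin⟩ := thin_inst G Cw hCw1
  obtain ⟨N3, hN3, hgd⟩ := G.exists_N1
  obtain ⟨N4, hN4, het⟩ := G.exists_et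
  set N0 : ℕ := max (max N1 N2) (max N3 N4) with hN0
  have hN01 : N1 ≤ N0 := (le_max_left _ _).trans (le_max_left _ _)
  have hN02 : N2 ≤ N0 := (le_max_right _ _).trans (le_max_left _ _)
  have hN03 : N3 ≤ N0 := (le_max_left _ _).trans (le_max_right _ _)
  have hN04 : N4 ≤ N0 := (le_max_right _ _).trans (le_max_right _ _)
  have hd0 : (0 : ℝ) < d := by
    have : 0 < d := by omega
    exact_mod_cast this
  have hbcp : 0 < bc d F := by
    have hF0 : (0 : ℝ) ≤ Fintype.card F := Nat.cast_nonneg _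
    unfold bc dg; positivity
  obtain ⟨K, hK, hstart⟩ := exists_start.{0} hc G Cw hCw1 N0 (ev_pos (pe d) (N0 + 1))
  refine ⟨δ, (K + 1) * Fintype.card F * Real.exp (2 * Cx + (2 * Cy + 1)), ev (pe d) N0, hδ,
    ev_pos _ _,
    by positivity, ?_⟩
  intro E hE a ha ha0
  obtain ⟨M, hM1, hM2⟩ := exists_M (s := pe d) (by unfold pe; omega) N0 ha ha0.le
  -- the size of the boundary
  obtain ⟨R, hR⟩ : ∃ R : ℕ, G.b * ((N0 + M : ℕ) : ℤ) + 2 ≤ R :=
    ⟨(G.b * ((N0 + M : ℕ) : ℤ) + 2).toNat, Int.self_le_toNat _⟩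
  set β0 : ℝ := 1 / (bc d F / a ^ 3 * (M + 1)) with hβ0
  have hβ0p : 0 < β0 := by positivity
  obtain ⟨n1, hn1⟩ := exists_nat_ge (2 * d * R / β0)
  refine ⟨max n1 (4 * R + 1), fun n hn => ?_⟩
  have hn2 : 4 * R + 1 ≤ n := (le_max_right _ _).trans hn
  have hnr : (2 * d * R / β0 : ℝ) ≤ n := hn1.trans (by exact_mod_cast (le_max_left _ _).trans hn)
  have hn0 : 0 < n := by omega
  have hnp : (0 : ℝ) < n := by exact_mod_cast hn0
  -- the instance
  let P : Par d c F ((Fin d → Fin n) × F) :=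
    { G := G, kap := kap, E := E, adm := hadm E hE, pos := SG.bp d n, inj := SG.bp_inj d n,
      N0 := N0, M := M, one_le := hN1.trans hN01, Cw := Cw, Cw_ge := hCwG, et := etf (pe d) N0 M a,
      et_pos := fun _ => etf_pos ha, et_le := fun _ => etf_le_one }
  have hstd : Std P a := ⟨rfl, ha, hM1, hM2⟩
  have hF : 0 < Fintype.card F := Fintype.card_pos
  have hFr : (0 : ℝ) < Fintype.card F := by exact_mod_cast hF
  have hcardN : Fintype.card ((Fin d → Fin n) × F) = n ^ d * Fintype.card F := by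
    rw [Fintype.card_prod, Fintype.card_fun, Fintype.card_fin, Fintype.card_fin]
  have hcard : (Fintype.card ((Fin d → Fin n) × F) : ℝ) = (n : ℝ) ^ d * Fintype.card F := by
    rw [hcardN]; push_cast; ring
  have hι : 0 < Fintype.card ((Fin d → Fin n) × F) := by
    rw [hcardN]; positivity
  have hRj : ∀ j ≤ M, P.G.b * ((P.N0 + j : ℕ) : ℤ) + 2 ≤ R := by
    intro j hj
    have h3 : ((P.N0 + j : ℕ) : ℤ) ≤ ((N0 + M : ℕ) : ℤ) := by
      have : P.N0 = N0 := rfl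
      rw [this]
      omega
    have h4 : (0 : ℤ) ≤ P.G.b := by have := P.G.hb; omega
    have h5 := mul_le_mul_of_nonneg_left h3 h4
    have h6 : P.G.b = G.b := rfl
    rw [h6] at h5 ⊢
    linarith
  have hbad : ∀ m < M, ((univ \ P.gds m).card : ℝ) ≤ β0 * Fintype.card ((Fin d → Fin n) × F) := by
    intro m hm
    refine (bad_card P rfl (hRj (m + 1) (by omega))).trans ?_
    rw [hcard]
    rw [div_le_iff₀ hβ0p] at hnr
    have h3 : (n : ℝ) ^ d = n * (n : ℝ) ^ (d - 1) := by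
      rw [← pow_succ']
      congr 1
      omega
    rw [h3, ← mul_assoc, ← mul_assoc]
    refine mul_le_mul_of_nonneg_right (mul_le_mul_of_nonneg_right ?_ (by positivity)) hFr.le
    linarith
  -- there is a block
  have hne : Nonempty P.Blk := by
    have hm : n / 2 < n := Nat.div_lt_self hn0 (by norm_num)
    obtain ⟨q, -⟩ := P.exists_blk (j := 0) (Nat.zero_le _)
      ((fun _ => (⟨n / 2, hm⟩ : Fin n)), Classical.arbitrary F)
      (fits_of P rfl (hRj 0 (Nat.zero_le _)) fun i => by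
        simp only
        omega)
    exact ⟨q⟩
  have hgood : Good P.sys P.A := P.good hgd hN03
  -- the start
  have h0 : P.sys.Dw P.A P.xi 0 1 (P.et 0) + Fintype.card ((Fin d → Fin n) × F) ≤
      (K + 1) * Fintype.card ((Fin d → Fin n) × F) := by
    have h3 := hstart ((Fin d → Fin n) × F) P rfl rfl rfl hgood (fun j => by
        refine le_trans ?_ (het (N0 + j) (hN04.trans (Nat.le_add_right _ _)))
        have h4 : P.et j ≤ Real.exp (-((N0 + j : ℕ) : ℝ) ^ pe d) := etf_le_ev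
        have h5 := G.nQ_nonneg (N0 + j)
        have h6 := G.Rb_nonneg (N0 + j)
        gcongr) 0 1 (P.et 0) (hstd.et_ge (j := 0) (Nat.zero_le _)) (P.et_le 0) zero_le_one le_rfl
    linarith
  -- the chain
  have hch := chain
    (F := fun m => P.sys.Dw P.A P.xi m 1 (P.et m) + Fintype.card ((Fin d → Fin n) × F))
    (H := fun m => P.sys.Dw P.A P.xi m 0 (P.et m) + Fintype.card ((Fin d → Fin n) × F))
    (x := fun m => Cx / ((N0 : ℝ) + m) ^ 2)
    (y := fun m => Cy / ((N0 : ℝ) + m) ^ 2 + bc d F / a ^ 3 * β0) M h0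
    (fun m hm => hthin ((Fin d → Fin n) × F) P a rfl rfl hN02 hstd hι m hm)
    (fun m hm => hlow ((Fin d → Fin n) × F) P a rfl rfl hN01 hstd hι β0 hβ0p.le m hm (hbad m hm))
  have hN0pos : 1 ≤ N0 := hN1.trans hN01
  have hsx : ∑ m ∈ range (M + 1), Cx / ((N0 : ℝ) + m) ^ 2 ≤ 2 * Cx := by
    have h3 := sum_inv_sq hN0pos (M + 1)
    have h4 : ∑ m ∈ range (M + 1), Cx / ((N0 : ℝ) + m) ^ 2 =
        Cx * ∑ m ∈ range (M + 1), 1 / ((N0 : ℝ) + m) ^ 2 := by
      rw [mul_sum]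
      exact sum_congr rfl fun _ _ => by ring
    rw [h4]
    nlinarith
  have hsy : ∑ m ∈ range M, (Cy / ((N0 : ℝ) + m) ^ 2 + bc d F / a ^ 3 * β0) ≤ 2 * Cy + 1 := by
    have h3 := sum_inv_sq hN0pos M
    have h4 : ∑ m ∈ range M, Cy / ((N0 : ℝ) + m) ^ 2 =
        Cy * ∑ m ∈ range M, 1 / ((N0 : ℝ) + m) ^ 2 := by
      rw [mul_sum]
      exact sum_congr rfl fun _ _ => by ring
    rw [sum_add_distrib, h4, sum_const, card_range, nsmul_eq_mul]
    have h5 : (M : ℝ) * (bc d F / a ^ 3 * β0) ≤ 1 := by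
      rw [hβ0]
      have h6 : (0 : ℝ) < bc d F / a ^ 3 := by positivity
      have h7 : (0 : ℝ) ≤ M := Nat.cast_nonneg _
      rw [mul_one_div, ← mul_div_assoc, div_le_one (by positivity)]
      nlinarith
    nlinarith
  have hM0 : P.sys.Dw P.A P.xi M 0 (P.et M) = ∫ V, AL.DU P.A P.xi
      (fun x => (V x : ℂ) - (a : ℂ) * Complex.I) ∂(P.sys.mu) := by
    rw [P.sys.Dw_top P.A P.xi (fun b => P.cls_le b)]
    have h3 : P.et M = a := hstd.et_last
    rw [h3]
  have hA : P.A = SG.Ab d F kap E n := by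
    ext x y
    have h3 : P.A x y = (if x = y then 2 * d + kap - E else 0) -
        if adj (SG.bp d n x) (SG.bp d n y) then 1 else 0 := rfl
    rw [h3]
    unfold SG.Ab
    rw [Matrix.of_apply]
    by_cases hxy : x = y
    · subst hxy
      rw [if_pos rfl, if_pos rfl, if_neg adj_irrefl, sub_zero]
    · rw [if_neg hxy, if_neg hxy]
      split_ifs <;> norm_num
  have hxi : P.xi = SG.xb d F n := by
    funext j x
    rcases j with j | j
    · have h3 : P.xi (Sum.inl j) x = (((SG.bp (F := F) d n x).1 j : ℤ) : ℝ) := rfl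
      rw [h3]
      unfold SG.bp GX.bp SG.xb
      simp
    · rfl
  have hmu' : P.sys.mu = Measure.pi fun _ : (Fin d → Fin n) × F => unif c := rfl
  rw [hM0, hA, hxi, hmu'] at hch
  have hexp : Real.exp (∑ m ∈ range (M + 1), Cx / ((N0 : ℝ) + m) ^ 2 +
      ∑ m ∈ range M, (Cy / ((N0 : ℝ) + m) ^ 2 + bc d F / a ^ 3 * β0)) ≤
      Real.exp (2 * Cx + (2 * Cy + 1)) := Real.exp_le_exp.mpr (add_le_add hsx hsy)
  have hfin : (K + 1) * (Fintype.card ((Fin d → Fin n) × F) : ℝ) *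
      Real.exp (∑ m ∈ range (M + 1), Cx / ((N0 : ℝ) + m) ^ 2 +
      ∑ m ∈ range M, (Cy / ((N0 : ℝ) + m) ^ 2 + bc d F / a ^ 3 * β0)) ≤
      (K + 1) * (Fintype.card ((Fin d → Fin n) × F) : ℝ) * Real.exp (2 * Cx + (2 * Cy + 1)) :=
    mul_le_mul_of_nonneg_left hexp (by positivity)
  have h9 : (0 : ℝ) ≤ Fintype.card ((Fin d → Fin n) × F) := Nat.cast_nonneg _
  calc ∫ V, AL.DU (SG.Ab d F kap E n) (SG.xb d F n) (fun x => ((V x : ℝ) : ℂ) - a * Complex.I)
        ∂(Measure.pi fun _ : (Fin d → Fin n) × F => unif c)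
      ≤ (K + 1) * (Fintype.card ((Fin d → Fin n) × F) : ℝ) * Real.exp (2 * Cx + (2 * Cy + 1)) := by
        linarith
    _ = _ := by rw [hcard]; ring

end Pool.Agent.Lib.MP_562b47_mp.SC
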