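import Pool.Agent.Lib.MP_562b47_mp.SC.NumI
import Pool.Agent.Lib.MP_562b47_mp.CD.LowNum
import Pool.Agent.Lib.MP_562b47_mp.LH.Fin

/-!
MP_562b47, slabs, the chain: lowering of the background for the instance.
-/

open Finset MeasureTheory

namespace Pool.Agent.Lib.MP_562b47_mp.SC

open Pool.Agent.Lib.MP_562b47_mp.SX Pool.Agent.Lib.MP_562b47_mp.SR Pool.Agent.Lib.MP_562b47_mp.WO
open Pool.Agent.Lib.MP_562b47_mp
open Pool.Agent.Lib.MP_562b47_mp.RD (pe)
open Pool.Agent.Lib.MP_562b47_mp.CD (ev ev_anti low_num)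

variable {d : ℕ} {c : ℝ} {F : Type} [Fintype F] [DecidableEq F] [Thin F]

/-- the constant of the sites without a block -/
noncomputable def bc (d : ℕ) (F : Type) [Fintype F] : ℝ :=
  10 * (d + Fintype.card F) * dg d F ^ 2

theorem bc_nonneg (d : ℕ) (F : Type) [Fintype F] : 0 ≤ bc d F := by
  unfold bc dg; positivity

/-- lower bound of the strength of the absorbers of the instance -/
theorem exists_G0 {ι : Type} [Fintype ι] [DecidableEq ι] (P : Par d c F ι) :
    ∃ G0 : ℝ, ∀ (b : P.Blk) V, P.sys.comp b V → (P.sys.gg P.A b V)⁻¹ ≤ G0 := by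
  refine ⟨∑ b : P.Blk, (P.G.gl (P.num b))⁻¹, fun b V h => ?_⟩
  have h1 := P.gg_ge h
  have h2 : 0 < P.G.gl (P.num b) := P.G.gl_pos _
  have h3 : (P.sys.gg P.A b V)⁻¹ ≤ (P.G.gl (P.num b))⁻¹ := inv_anti₀ h2 h1
  refine h3.trans ?_
  exact Finset.single_le_sum (f := fun b : P.Blk => (P.G.gl (P.num b))⁻¹)
    (fun b _ => (inv_pos.mpr (P.G.gl_pos _)).le) (mem_univ b)

/-- LOWER: the background goes from `et m` to `et (m + 1)` -/
theorem low_inst (hc : 0 < c) (G : Gd d c F) : ∃ Cw : ℝ, 1 ≤ Cw ∧ G.C ≤ Cw ∧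
    ∃ (N1 : ℕ) (Cy : ℝ), 1 ≤ N1 ∧ 0 ≤ Cy ∧
    ∀ (ι : Type) [Fintype ι] [DecidableEq ι] (P : Par d c F ι) [Nonempty P.Blk] (a : ℝ), P.G = G →
      P.Cw = Cw → N1 ≤ P.N0 → Std P a → 0 < Fintype.card ι → ∀ β : ℝ, 0 ≤ β →
      ∀ m < P.M, ((univ \ P.gds m).card : ℝ) ≤ β * Fintype.card ι →
        P.sys.Dw P.A P.xi (m + 1) 1 (P.et (m + 1)) + Fintype.card ι ≤
          (P.sys.Dw P.A P.xi m 0 (P.et m) + Fintype.card ι) *
            Real.exp (Cy / ((P.N0 : ℝ) + m) ^ 2 + bc d F / a ^ 3 * β) := by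
  have hd := G.hd
  have hbc := bc_nonneg d F
  obtain ⟨C, hC, H⟩ := LH.rate_fin c G.r hc G.r_pos
  obtain ⟨Cw, hCw1, hCwG, N1, Cz, hN1, hCz, HN⟩ := num_inst G C hC
  set Cp : ℝ := LH.Pc.Cst c G.r (1 / (4 * c)) (G.r / 2) with hCp
  have hr := G.r_pos
  have hCp0 : 0 ≤ Cp := (LH.Pc.Cst_pos hc hr (by positivity) (by positivity)).le
  obtain ⟨N2, Cy, hN2, hCy, HL⟩ := low_num (q := 2 * d + 1) (s := pe d) (k := d) (by omega)
    (by unfold pe; omega) (by unfold pe; omega) C Cp Cz (by linarith) hCp0 hCz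
  obtain ⟨N3, hN3, hgd⟩ := G.exists_N1
  refine ⟨Cw, hCw1, hCwG, max (max N1 N2) N3, Cy, hN1.trans ((le_max_left _ _).trans
    (le_max_left _ _)), hCy, ?_⟩
  intro ι _ _ P _ a hG hCw hN0 hstd hι β hβ m hm hbad
  have hP1 : N1 ≤ P.N0 := (le_max_left _ _).trans ((le_max_left _ _).trans hN0)
  have hP2 : N2 ≤ P.N0 := (le_max_right _ _).trans ((le_max_left _ _).trans hN0)
  have hP3 : N3 ≤ P.N0 := (le_max_right _ _).trans hN0
  have hgood : Good P.sys P.A := P.good (by rw [hG]; exact hgd) hP3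
  obtain ⟨G0, hG0⟩ := exists_G0 P
  have hmM : m + 1 ≤ P.M := hm
  -- the size of the comparison gadget
  set N : ℕ := P.N0 + m with hN
  have hNc : ((N : ℕ) : ℝ) = (P.N0 : ℝ) + m := by rw [hN]; push_cast; ring
  set X : ℝ := Real.exp (Cz * ((N : ℝ) + 1) ^ (2 * d + 1)) with hX
  set Y : ℝ := Cz * ((N : ℝ) + 1) ^ 2 with hY
  set Yd : ℝ := Cz * ((N : ℝ) + 1) ^ d with hYd
  have hN0' : (0 : ℝ) ≤ (N : ℝ) := Nat.cast_nonneg _
  have hX0 : 0 < X := Real.exp_pos _
  have hY0 : 0 ≤ Y := by positivity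
  have hYd0 : 0 ≤ Yd := by positivity
  have ha := hstd.a_pos
  -- the numbers
  have hnum := HL N (hP2.trans (Nat.le_add_right _ _)) X X Y (Cz * Real.exp (-((N : ℝ) + 1))) Yd 0
    (1 / 2) (P.et m) (P.et (m + 1)) hX0.le hX0.le hY0 hYd0 le_rfl le_rfl le_rfl le_rfl
    (by ring_nf; exact le_rfl) (by
      have := hstd.et_ge (j := m + 1) hmM
      rw [show N + 2 = P.N0 + (m + 1) + 1 by omega]
      exact this) (hstd.et_anti hm) (hstd.et_le_ev m)
  set Zb : ℝ := 2 * (C * (Cp + 1)) * (X * (X + (2 + 2 * Y) * Yd) + C * (Cp + 1) * (2 + 2 * Y) * Yd)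
    with hZb
  set Kb : ℝ := C * (Cp + 1) * (Cz * Real.exp (-((N : ℝ) + 1))) * (2 * Yd * 0 + 2 * (1 / 2))
    with hKb
  set Eb : ℝ := C * (Cp + 1) * (2 * Y + 1) with hEb
  have hC0 : 0 ≤ C := by linarith
  have hZb0 : 0 ≤ Zb := by positivity
  have hKb0 : 0 ≤ Kb := by positivity
  have hEb0 : 0 ≤ Eb := by positivity
  have he1 : 0 ≤ bc d F / a ^ 3 * β := by positivity
  have hcard : (0 : ℝ) < Fintype.card ι := by exact_mod_cast hι
  have hlow := P.sys.lower hgood P.xi m (Fintype.card ι) Zb Kb (Eb + bc d F / a ^ 3 * β) hcard hZb0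
    hKb0 (by positivity) (hstd.et_anti hm) (by
      intro a' h1 h2
      have h1' : P.et (m + 1) < a' := h1
      have h2' : a' < P.et m := h2
      have haa : a ≤ a' := (hstd.et_ge_a hmM).trans h1'.le
      have ha' : 0 < a' := ha.trans_le haa
      have hal : a' ≤ 1 / 2 := by
        refine h2'.le.trans ((hstd.et_le_ev m).trans ?_)
        have h3 : ev (pe d) (P.N0 + m) ≤ ev (pe d) 1 :=
          ev_anti _ (by have := P.one_le; omega)
        refine h3.trans ?_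
        unfold ev
        rw [Nat.cast_one, one_pow, Real.exp_neg, ← one_div]
        apply one_div_le_one_div_of_le (by norm_num)
        have := Real.add_one_le_exp (1 : ℝ)
        linarith
      obtain ⟨Z0, W0, D0, K2, Nn, qb, qc, q, hNum, b1, b2, b3, b4, b5⟩ :=
        HN ι P a hG hCw hP1 hstd m hm a' h1' h2'
      have hgeo := P.lhGeo hmM
      have hparts := LH.parts (A := P.A) (a := a') hgood hgeo ha' hal hG0
      have hCst : LH.Pc.Cst P.sys.c P.sys.r P.sys.κ (P.G.r / 2) = Cp := by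
        rw [hCp, ← hG]; rfl
      rw [hCst] at hparts
      rw [hG] at hgeo hparts
      have hl1 : G.r ≤ P.j1 - P.j0 := by rw [P.j1_sub, hG]
      have hb : 10 * (Fintype.card (Fin d ⊕ F) : ℝ) * dg d F ^ 2 / a ^ 3 *
          ((univ \ P.gds m).card : ℝ) ≤ bc d F / a ^ 3 * β * Fintype.card ι := by
        rw [Fintype.card_sum, Fintype.card_fin, Nat.cast_add, mul_assoc (bc d F / a ^ 3) β]
        exact mul_le_mul_of_nonneg_left hbad (by positivity)
      have h3 := H ι P.Blk (Fin d ⊕ F) P.sys P.A m a' P.xi (P.gds m) (P.bs m) P.j0 P.j1 (G.r / 2) rfl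
        hgood hgeo hl1 ha' hal Z0 W0 D0 K2 Nn qb qc q hNum Cp hCp0 hparts P.nb (dg d F) a
        (bc d F / a ^ 3 * β) P.geo ha haa (fun b _ => hstd.et_ge_a (P.cls_le b)) he1 hb
      refine h3.trans (mul_le_mul_of_nonneg_right ?_ ?_)
      · have hr8 : 0 ≤ a' ^ (-(7 / 8) : ℝ) := (Real.rpow_pos_of_pos ha' _).le
        have hai : 0 ≤ a'⁻¹ := (inv_pos.mpr ha').le
        have hD0 := hNum.D0_nonneg
        have hZ0 := hNum.Z0_nonneg
        have hW0 := hNum.W0_nonneg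
        have hNn := hNum.Nn_nonneg
        rw [← hNc] at b1 b2 b3 b4 b5
        have e1 : 2 * (C * (Cp + 1)) * (Z0 * (W0 + (2 + 2 * D0) * Nn) +
            C * (Cp + 1) * (2 + 2 * D0) * Nn) ≤ Zb := by
          rw [hZb]
          gcongr
        have e2 : C * (Cp + 1) * K2 * (2 * Nn * qb + 2 * qc) ≤ Kb := by
          have e3 : C * (Cp + 1) * K2 * (2 * Nn * qb + 2 * qc) =
              C * (Cp + 1) * (K2 * (2 * Nn * qb + 2 * qc)) := by ring
          have e4 : Kb = C * (Cp + 1) * (Cz * Real.exp (-((N : ℝ) + 1))) := by rw [hKb]; ring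
          rw [e3, e4]
          exact mul_le_mul_of_nonneg_left b5 (by positivity)
        have e5 : C * (Cp + 1) * (2 * D0 + 1) ≤ Eb := by
          rw [hEb]
          gcongr
        have e6 := mul_le_mul_of_nonneg_right e1 hr8
        have e7 := mul_le_mul_of_nonneg_right e2 hai
        linarith
      · have := P.sys.Dw_nonneg (A := P.A) hgood P.xi m (le_refl 0) zero_le_one ha'
        positivity)
  refine hlow.trans (mul_le_mul_of_nonneg_left (Real.exp_le_exp.mpr ?_) ?_)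
  · have h1 : P.et m ≤ 1 := P.et_le m
    have h2 : 0 < P.et m := P.et_pos m
    have h3 : bc d F / a ^ 3 * β * P.et m ≤ bc d F / a ^ 3 * β := mul_le_of_le_one_right he1 h1
    have h4 : P.sys.et = P.et := rfl
    rw [h4]
    rw [hNc] at hnum
    have h5 : (Eb + bc d F / a ^ 3 * β) * P.et m = Eb * P.et m + bc d F / a ^ 3 * β * P.et m := by ring
    rw [h5]
    linarith
  · have := P.sys.Dw_nonneg (A := P.A) hgood P.xi m (le_refl 0) zero_le_one (P.sys.et_pos m)
    positivity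

end Pool.Agent.Lib.MP_562b47_mp.SC
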